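import Mathlib
import Pool.Agent.Q158.EqD.Weyl

/-!
# The bad directions for the distribution of the multiples of `x π + y e` lie on one line

Let `D_N(u)` be the discrepancy of the numbers `u, 2 u, …, N u` modulo one. The numbers `1, e, t` are
linearly independent over `ℚ` if and only if `D_N(x t + y e)` tends to zero for all integral
`(x, y) ≠ (0, 0)`. We show, for all real `t`, that at every scale this can fail in one direction only:

  `D_L(x t + y e) D_M(x' t + y' e) ≤ 60000 (|k| (|x| + |x'|) (1 + log (|k| N)) / N) ^ (1/2)`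

for all `L, M ≥ N ≥ 1` and all integral vectors with `k = x' y - x y' ≠ 0`. So for every `N` there is a
line through the origin of `ℤ²` such that all integral vectors `(x, y)` off the line, with
`|x|, |y| ≤ H`, satisfy `D_M(x t + y e) < δ` for ALL `M ≥ N`, as soon as
`60000 (4 H ^ 3 (1 + log (2 H ^ 2 N)) / N) ^ (1/2) < δ ^ 2`; for instance `H = N ^ (1/8)` and
`δ = C N ^ (-5/32) (1 + log N) ^ (1/4)`. This applies to `t = π`.
-/

set_option autoImplicit false

open Real Filter

namespace Pool.Agent.Results.MP_58e087_nt.BadDirections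

noncomputable section

/-- The number of the `n`, `1 ≤ n ≤ N`, for which the fractional part of `n x` lies in `[a, b)`. -/
def count (x : ℝ) (N : ℕ) (a b : ℝ) : ℕ :=
  ((Finset.Icc 1 N).filter fun n : ℕ => a ≤ Int.fract (n * x) ∧ Int.fract (n * x) < b).card

/-- The discrepancy of `x, 2 x, …, N x` modulo one: the supremum over the intervals
`[a, b) ⊆ [0, 1)` of the difference between the proportion of the `n ≤ N` with `n x` in `[a, b)`
modulo one and the length of the interval. -/
def discrepancy (x : ℝ) (N : ℕ) : ℝ :=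
  sSup {d | ∃ a b : ℝ, 0 ≤ a ∧ a ≤ b ∧ b ≤ 1 ∧ d = |(count x N a b : ℝ) / N - (b - a)|}

theorem result :
    -- two directions
    (∀ (t : ℝ) (x y x' y' : ℤ), x' * y - x * y' ≠ 0 → ∀ N L M : ℕ, 0 < N → N ≤ L → N ≤ M →
      discrepancy (x * t + y * exp 1) L * discrepancy (x' * t + y' * exp 1) M ≤
        60000 * √(|((x' * y - x * y' : ℤ) : ℝ)| * (|(x : ℝ)| + |(x' : ℝ)|) *
          (1 + log (|((x' * y - x * y' : ℤ) : ℝ)| * N)) / N)) ∧
    -- the bad directions lie on a line
    (∀ (t : ℝ) (N H : ℕ), 0 < N → 0 < H → ∀ δ : ℝ, 0 < δ →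
      60000 * √(4 * H ^ 3 * (1 + log (2 * H ^ 2 * N)) / N) < δ ^ 2 →
      ∃ a b : ℤ, (a ≠ 0 ∨ b ≠ 0) ∧ ∀ x y : ℤ, |x| ≤ H → |y| ≤ H → ∀ M : ℕ, N ≤ M →
        δ ≤ discrepancy (x * t + y * exp 1) M → a * x + b * y = 0) ∧
    -- the criterion for the linear independence
    (∀ t : ℝ, (∀ a b c : ℤ, (a : ℝ) + b * exp 1 + c * t = 0 → a = 0 ∧ b = 0 ∧ c = 0) ↔
      ∀ x y : ℤ, (x ≠ 0 ∨ y ≠ 0) →
        Tendsto (fun N : ℕ => discrepancy (x * t + y * exp 1) N) atTop (nhds 0)) :=
  ⟨fun t x y x' y' hk N L M hN hL hM =>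
      Pool.Agent.Q158.EqD.directions t x y x' y' hk N L M hN hL hM,
    fun t N H hN hH δ hδ h => Pool.Agent.Q158.EqD.line t N H hN hH δ hδ h,
    Pool.Agent.Q158.EqD.criterion⟩

end

end Pool.Agent.Results.MP_58e087_nt.BadDirections
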