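import Mathlib
import Pool.Agent.Q199.Dg.Dir

/-!
# The digits of the forms `(x π + y e + z) / w`, at every scale

If `1, e, t` are linearly dependent over `ℚ` then there is exactly one direction `(x : y)` for which
`x t + y e` is rational, so that all the numbers `(x t + y e + z) / w` of this direction have
(ultimately) periodic digits. We prove a form of this which holds at EVERY scale and for ALL real
`t`, and a criterion.

1. For all real `t`, all bases `b`, `H ≥ 1`, places `s` and lengths `n`, `l` with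
   `(612 + 188 log (H² b^(s+2n))) H⁴ b^(s+3n) < b^l`: all the forms `(x t + y e + z) / w` with integers
   `|x|, |y|, |w| ≤ H`, `w ≠ 0`, and any integer `z`, for which two of the `n + 1` blocks of `l`
   digits beginning at the places `s, …, s + n` coincide, have proportional pairs `(x, y)`.
2. The same for the forms for which the digits of the places `s, …, s + L - 1` contain at most
   `n` different blocks of `n` digits if `(612 + 188 log (H² b^(s+2n))) H⁴ b^(s+4n) < b^L`.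
3. Let `ε > 0` and `λ > 4 + 4 ε`. For all real `t` the numbers `1, e, t` are linearly dependent over
   `ℚ` if and only if for all sufficiently large `n` there is a form `(x t + y e + z) / w` with
   `(x, y) ≠ (0, 0)`, `w ≠ 0`, `|x|, |y|, |w| ≤ b^(ε n)`, which has at most `n` different blocks of
   `n` digits among its first `⌈λ n⌉` digits.
4. So `1, e, π` are linearly independent if and only if for infinitely many `n` ALL forms
   `(x π + y e + z) / w` with `(x, y) ≠ (0, 0)`, `w ≠ 0`, `|x|, |y|, |w| ≤ 10^(n/5)`, have more than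
   `n` different blocks of `n` decimals among their first `5 n` decimals.
-/

set_option autoImplicit false

open Real Filter

namespace Pool.Agent.Results.MP_58e087_nt.BlocksInDirections

noncomputable section

/-- the digit of the place `n = 0, 1, …` after the point in the base `b` expansion of `x` -/
def digit (b : ℕ) (x : ℝ) (n : ℕ) : ℤ := ⌊x * (b : ℝ) ^ (n + 1)⌋ % (b : ℤ)

/-- two of the `n + 1` blocks of `l` digits of `x` which begin at the places `s, …, s + n`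
coincide -/
def Repeats (b : ℕ) (x : ℝ) (s n l : ℕ) : Prop :=
  ∃ i j, i < j ∧ j ≤ n ∧ ∀ k < l, digit b x (s + i + k) = digit b x (s + j + k)

/-- the number of different blocks of `n` digits among the digits of `x` of the places
`s, …, s + L - 1` -/
def blocks (b : ℕ) (x : ℝ) (s n L : ℕ) : ℕ :=
  ((Finset.range (L + 1 - n)).image fun i => fun k : Fin n => digit b x (s + i + k)).card

/-- the value of the form -/
def form (t : ℝ) (x y z w : ℤ) : ℝ := (x * t + y * exp 1 + z) / w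

/-- the coefficients `x, y, w` (but not `z`) are bounded by `H`, and `w ≠ 0` -/
def Bounded (H : ℝ) (x y w : ℤ) : Prop := |(x : ℝ)| ≤ H ∧ |(y : ℝ)| ≤ H ∧ w ≠ 0 ∧ |(w : ℝ)| ≤ H

theorem unique (b : ℕ) (hb : 2 ≤ b) (t H : ℝ) (hH : 1 ≤ H) (s n l : ℕ)
    (hl : (612 + 188 * log (H ^ 2 * (b : ℝ) ^ (s + 2 * n))) * H ^ 4 *
      (b : ℝ) ^ (s + 3 * n) < (b : ℝ) ^ l)
    (x y z w x' y' z' w' : ℤ) (h1 : Bounded H x y w) (h1' : Bounded H x' y' w')
    (h2 : Repeats b (form t x y z w) s n l) (h2' : Repeats b (form t x' y' z' w') s n l) :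
    x * y' = x' * y := by
  obtain ⟨a1, a2, a3, a4⟩ := h1
  obtain ⟨c1, c2, c3, c4⟩ := h1'
  exact Pool.Agent.Q199.Dg.dir_unique b hb t H hH s n l hl x y z w x' y' z' w' a3 c3 a1 a2 a4
    c1 c2 c4 h2 h2'

theorem unique_blocks (b : ℕ) (hb : 2 ≤ b) (t H : ℝ) (hH : 1 ≤ H) (s n L : ℕ)
    (hL : (612 + 188 * log (H ^ 2 * (b : ℝ) ^ (s + 2 * n))) * H ^ 4 *
      (b : ℝ) ^ (s + 4 * n) < (b : ℝ) ^ L)
    (x y z w x' y' z' w' : ℤ) (h1 : Bounded H x y w) (h1' : Bounded H x' y' w')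
    (h2 : blocks b (form t x y z w) s n L ≤ n) (h2' : blocks b (form t x' y' z' w') s n L ≤ n) :
    x * y' = x' * y := by
  have hb1 : (1 : ℝ) < b := by exact_mod_cast (by omega : 1 < b)
  have hb0 : (0 : ℝ) < b := by linarith
  have hX : 1 ≤ (612 + 188 * log (H ^ 2 * (b : ℝ) ^ (s + 2 * n))) * H ^ 4 := by
    have e1 : (1 : ℝ) ≤ H ^ 2 := one_le_pow₀ hH
    have e2 : (1 : ℝ) ≤ (b : ℝ) ^ (s + 2 * n) := one_le_pow₀ hb1.le
    have e3 : (1 : ℝ) ≤ H ^ 4 := one_le_pow₀ hH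
    have hlog := log_nonneg (show (1 : ℝ) ≤ H ^ 2 * (b : ℝ) ^ (s + 2 * n) by nlinarith)
    nlinarith
  set X := (612 + 188 * log (H ^ 2 * (b : ℝ) ^ (s + 2 * n))) * H ^ 4 with hXdef
  have h3 : s + 4 * n < L := by
    by_contra hcon
    have h4 : (b : ℝ) ^ L ≤ (b : ℝ) ^ (s + 4 * n) := pow_le_pow_right₀ hb1.le (by omega)
    have h5 : (0 : ℝ) < (b : ℝ) ^ (s + 4 * n) := by positivity
    nlinarith
  have h4 : X * (b : ℝ) ^ (s + 3 * n) < (b : ℝ) ^ (L - n) := by
    have e1 : (b : ℝ) ^ L = (b : ℝ) ^ (L - n) * (b : ℝ) ^ n := by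
      rw [← pow_add]; congr 1; omega
    have e2 : (b : ℝ) ^ (s + 4 * n) = (b : ℝ) ^ (s + 3 * n) * (b : ℝ) ^ n := by
      rw [← pow_add]; congr 1; ring
    rw [e1, e2, ← mul_assoc] at hL
    exact lt_of_mul_lt_mul_right hL (by positivity)
  exact unique b hb t H hH s n (L - n) h4 x y z w x' y' z' w' h1 h1'
    (Pool.Agent.Q199.Dg.rep_of_few b _ s n L (by omega) h2)
    (Pool.Agent.Q199.Dg.rep_of_few b _ s n L (by omega) h2')

/-- the form is simple at the scale `n` -/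
def Simple (b : ℕ) (t ε lam : ℝ) (n : ℕ) (x y z w : ℤ) : Prop :=
  (x ≠ 0 ∨ y ≠ 0) ∧ Bounded ((b : ℝ) ^ (ε * n)) x y w ∧ blocks b (form t x y z w) 0 n ⌈lam * n⌉₊ ≤ n

theorem simple_iff (b : ℕ) (t ε lam : ℝ) (n : ℕ) (x y z w : ℤ) : Simple b t ε lam n x y z w ↔
    Pool.Agent.Q199.Dg.Simple b t ε lam n x y z w := by
  constructor
  · rintro ⟨h1, ⟨h2, h3, h4, h5⟩, h6⟩
    exact ⟨h1, h4, h2, h3, h5, h6⟩
  · rintro ⟨h1, h4, h2, h3, h5, h6⟩
    exact ⟨h1, ⟨h2, h3, h4, h5⟩, h6⟩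

/-- `1, e, t` are linearly dependent over `ℚ`, as in the problem -/
def Dependent (t : ℝ) : Prop :=
  ∃ a b c : ℤ, ¬ (a = 0 ∧ b = 0 ∧ c = 0) ∧ a + b * exp 1 + c * t = 0

theorem criterion (b : ℕ) (hb : 2 ≤ b) (ε lam : ℝ) (hε : 0 < ε) (hl : 4 + 4 * ε < lam) (t : ℝ) :
    Dependent t ↔ ∀ᶠ n : ℕ in atTop, ∃ x y z w : ℤ, Simple b t ε lam n x y z w := by
  simp_rw [simple_iff]
  rw [← Pool.Agent.Q199.Dg.criterion b hb ε lam hε hl t]
  constructor
  · rintro ⟨a, c, d, h1, h2⟩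
    refine ⟨d, c, a, ?_, by linarith⟩
    by_contra hcon
    push Not at hcon
    obtain ⟨h3, h4⟩ := hcon
    apply h1
    refine ⟨?_, h4, h3⟩
    rw [h3, h4] at h2
    simpa using h2
  · rintro ⟨x, y, z, h1, h2⟩
    refine ⟨z, y, x, ?_, by linarith⟩
    rintro ⟨-, h4, h5⟩
    rcases h1 with h | h
    · exact h h5
    · exact h h4

theorem result :
    -- 1. repetitions
    (∀ b : ℕ, 2 ≤ b → ∀ t H : ℝ, 1 ≤ H → ∀ s n l : ℕ,
      (612 + 188 * log (H ^ 2 * (b : ℝ) ^ (s + 2 * n))) * H ^ 4 * (b : ℝ) ^ (s + 3 * n) <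
        (b : ℝ) ^ l →
      ∀ x y z w x' y' z' w' : ℤ, Bounded H x y w → Bounded H x' y' w' →
        Repeats b (form t x y z w) s n l → Repeats b (form t x' y' z' w') s n l →
        x * y' = x' * y) ∧
    -- 2. blocks
    (∀ b : ℕ, 2 ≤ b → ∀ t H : ℝ, 1 ≤ H → ∀ s n L : ℕ,
      (612 + 188 * log (H ^ 2 * (b : ℝ) ^ (s + 2 * n))) * H ^ 4 * (b : ℝ) ^ (s + 4 * n) <
        (b : ℝ) ^ L →
      ∀ x y z w x' y' z' w' : ℤ, Bounded H x y w → Bounded H x' y' w' →
        blocks b (form t x y z w) s n L ≤ n → blocks b (form t x' y' z' w') s n L ≤ n →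
        x * y' = x' * y) ∧
    -- 3. the criterion
    (∀ b : ℕ, 2 ≤ b → ∀ ε lam : ℝ, 0 < ε → 4 + 4 * ε < lam → ∀ t : ℝ,
      (Dependent t ↔ ∀ᶠ n : ℕ in atTop, ∃ x y z w : ℤ, Simple b t ε lam n x y z w)) ∧
    -- 4. the numbers of the problem
    (¬ Dependent π ↔ ∃ᶠ n : ℕ in atTop, ∀ x y z w : ℤ, (x ≠ 0 ∨ y ≠ 0) →
      Bounded ((10 : ℝ) ^ ((n : ℝ) / 5)) x y w → n < blocks 10 (form π x y z w) 0 n (5 * n)) := by
  refine ⟨unique, unique_blocks, criterion, ?_⟩
  rw [criterion 10 (by norm_num) (1 / 5) 5 (by norm_num) (by norm_num) π, Filter.not_eventually]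
  apply Filter.frequently_congr
  filter_upwards with n
  have e1 : ⌈(5 : ℝ) * n⌉₊ = 5 * n := by
    have : (5 : ℝ) * n = ((5 * n : ℕ) : ℝ) := by push_cast; rfl
    rw [this, Nat.ceil_natCast]
  have e2 : (((10 : ℕ) : ℝ) ^ (1 / 5 * (n : ℝ))) = (10 : ℝ) ^ ((n : ℝ) / 5) := by
    push_cast
    congr 1
    ring
  unfold Simple
  rw [e1, e2]
  push Not
  constructor
  · intro h x y z w h1 h2
    exact h x y z w h1 h2
  · intro h x y z w h1 h2
    exact h x y z w h1 h2

end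

end Pool.Agent.Results.MP_58e087_nt.BlocksInDirections
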