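import Pool.Agent.Q258.TwoPar.B

/-!
# Dependent triples `1, e^r, π^s`

All pairs `(r, s)`, `r ≠ 0` algebraic, `s ≠ 0` rational, for which `1, e^r, π^s` are linearly
dependent over the field of algebraic numbers: there are none, or one, or they form the line
`r = ρ s`, `ρ` real.
-/

set_option autoImplicit false

namespace Pool.Agent.Results.MP_58e087_nt.DependentTriples

open Pool.Agent.Q258.TwoPar Pool.Agent.H340R2

/-- algebraic over the rational numbers -/
abbrev Alg (z : ℂ) : Prop := IsAlgebraic ℚ z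

/-- `1, x, y` are linearly dependent over the algebraic numbers -/
def Dependent (x y : ℂ) : Prop := ∃ a b c : ℂ, Alg a ∧ Alg b ∧ Alg c ∧
  (a ≠ 0 ∨ b ≠ 0 ∨ c ≠ 0) ∧ a + b * x + c * y = 0

/-- the pairs `(r, s)`, `r ≠ 0` algebraic, `s ≠ 0` rational, with `1, e^r, t^s` dependent -/
def Pairs (t : ℝ) : Set (ℂ × ℚ) := {p | Alg p.1 ∧ p.1 ≠ 0 ∧ p.2 ≠ 0 ∧
  Dependent (Complex.exp p.1) ((t ^ (p.2 : ℝ) : ℝ) : ℂ)}

theorem trans_coe {t : ℝ} (h : Transcendental ℚ t) : Transcendental ℚ (t : ℂ) := fun h1 =>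
  h ((isAlgebraic_algebraMap_iff (A := ℂ) (algebraMap ℝ ℂ).injective).mp h1)

theorem trans_rpow {t : ℝ} (ht : 0 < t) (h : Transcendental ℚ t) {s : ℚ} (hs : s ≠ 0) :
    Transcendental ℚ ((t ^ (s : ℝ) : ℝ) : ℂ) := by
  intro h1
  have := rpow_indep ht h ![0, s] (by
      intro i j hij
      fin_cases i <;> fin_cases j
      · rfl
      · exact absurd hij.symm hs
      · exact absurd hij hs
      · rfl) 1 one_ne_zero ![-((t ^ (s : ℝ) : ℝ) : ℂ), 1] (by
      intro i
      fin_cases i
      · exact h1.neg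
      · exact isAlgebraic_one) (by
      rw [Fin.sum_univ_two]
      simp only [Matrix.cons_val_zero, Matrix.cons_val_one, Rat.cast_zero, Real.rpow_zero,
        Complex.ofReal_one, mul_one]
      ring) 1
  exact one_ne_zero this

theorem pairs_rep {t : ℝ} (ht : 0 < t) (htr : Transcendental ℚ t) {p : ℂ × ℚ}
    (hp : p ∈ Pairs t) : ∃ a c : ℂ, Alg a ∧ Alg c ∧ c ≠ 0 ∧
      Complex.exp p.1 = a + c * ((t ^ (p.2 : ℝ) : ℝ) : ℂ) := by
  obtain ⟨h1, h2, h3, h4⟩ := hp
  exact Dep.rep (LW.transcendental_cexp _ h1 h2) (trans_rpow ht htr h3) h4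

theorem pairs_conj {t : ℝ} {p : ℂ × ℚ} (hp : p ∈ Pairs t) :
    ((starRingEnd ℂ) p.1, p.2) ∈ Pairs t := by
  obtain ⟨h1, h2, h3, h4⟩ := hp
  exact ⟨conj_alg h1, by simpa using h2, h3, dep_conj h4⟩

theorem zero_of {t : ℝ} (ht : 0 < t) (htr : Transcendental ℚ t) {s : ℚ} (hs : s ≠ 0)
    {a c : ℂ} (ha : Alg a) (hc : Alg c) (h : a + c * ((t ^ (s : ℝ) : ℝ) : ℂ) = 0) : a = 0 := by
  by_cases hc0 : c = 0
  · simpa [hc0] using h
  · exfalso
    apply trans_rpow ht htr hs
    have : ((t ^ (s : ℝ) : ℝ) : ℂ) = -a * c⁻¹ := by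
      field_simp
      linear_combination h
    rw [this]
    exact ha.neg.mul hc.inv

/-- all powers `t^s` on the line -/
theorem on_line {t : ℝ} (ht : 0 < t) {r : ℂ} {s s' : ℚ} (hs : s ≠ 0)
    {c : ℂ} (hc : Alg c) (h : Complex.exp r = c * ((t ^ (s : ℝ) : ℝ) : ℂ)) :
    Dependent (Complex.exp (r / s * s')) ((t ^ (s' : ℝ) : ℝ) : ℂ) := by
  obtain ⟨N, k, hN, hk⟩ := common ![s, s']
  have hk0 := hk 0
  have hk1 := hk 1
  simp only [Matrix.cons_val_zero, Matrix.cons_val_one] at hk0 hk1
  have hk0' : k 0 ≠ 0 := by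
    intro h0
    rw [h0] at hk0
    simp at hk0
    exact hs hk0
  have hNq : (N : ℚ) ≠ 0 := by positivity
  have htc : ((t ^ (s' : ℝ) : ℝ) : ℂ) ≠ 0 := by exact_mod_cast (Real.rpow_pos_of_pos ht _).ne'
  set d : ℂ := Complex.exp (r / s * s') / ((t ^ (s' : ℝ) : ℝ) : ℂ) with hd
  have hz : ∀ (x : ℂ) (n : ℤ), IsAlgebraic ℚ x → IsAlgebraic ℚ (x ^ n) := by
    intro x n hx
    rcases n with n | n
    · simpa using hx.pow n
    · rw [zpow_negSucc]
      exact (hx.pow _).inv
  have hpow : d ^ (k 0) = c ^ (k 1) := by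
    rw [hd, div_zpow, ← Complex.exp_int_mul]
    have h1 : (k 0 : ℂ) * (r / s * s') = (k 1 : ℂ) * r := by
      have hsc : (s : ℂ) = (k 0 : ℂ) / N := by
        rw [hk0]; push_cast; rfl
      have hsc' : (s' : ℂ) = (k 1 : ℂ) / N := by
        rw [hk1]; push_cast; rfl
      have hk0c : (k 0 : ℂ) ≠ 0 := by exact_mod_cast hk0'
      have hNc : (N : ℂ) ≠ 0 := by exact_mod_cast hN.ne'
      rw [hsc, hsc']
      field_simp
    rw [h1, Complex.exp_int_mul, h, mul_zpow, ← Complex.ofReal_zpow, ← Complex.ofReal_zpow,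
      ← Real.rpow_intCast, ← Real.rpow_intCast, ← Real.rpow_mul ht.le, ← Real.rpow_mul ht.le]
    have h2 : (s : ℝ) * (k 1 : ℝ) = (s' : ℝ) * (k 0 : ℝ) := by
      have : s * (k 1 : ℚ) = s' * (k 0 : ℚ) := by
        rw [hk0, hk1]
        field_simp
      exact_mod_cast this
    rw [h2]
    have h3 : ((t ^ ((s' : ℝ) * (k 0 : ℝ)) : ℝ) : ℂ) ≠ 0 := by
      exact_mod_cast (Real.rpow_pos_of_pos ht _).ne'
    field_simp
  have halg : Alg d := by
    have h1 : Alg (d ^ (k 0)) := by rw [hpow]; exact hz _ _ hc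
    rcases Int.natAbs_eq (k 0) with h2 | h2
    · rw [h2, zpow_natCast] at h1
      exact h1.of_pow (Int.natAbs_pos.mpr hk0')
    · rw [h2, zpow_neg, zpow_natCast] at h1
      have h3 := h1.inv
      rw [inv_inv] at h3
      exact h3.of_pow (Int.natAbs_pos.mpr hk0')
  refine Dep.of_rep isAlgebraic_zero halg ?_
  rw [zero_add, hd]
  field_simp

/-- **Main result.** -/
theorem result :
    -- (1) every real transcendental number, for instance `π`, has at most one exponential
    (∀ t : ℂ, Transcendental ℚ t → ∀ α α' : ℂ, Alg α → Alg α' → α ≠ 0 → α' ≠ 0 →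
      Dependent (Complex.exp α) t → Dependent (Complex.exp α') t → α = α') ∧
    (∀ t : ℝ, Transcendental ℚ t → ∀ α : ℂ, Alg α → α ≠ 0 →
      Dependent (Complex.exp α) t → α.im = 0) ∧
    -- (2) every exponential has at most one line of logarithms
    (∀ α l l' : ℂ, Alg α → α ≠ 0 → l ≠ 0 → l' ≠ 0 → Alg (Complex.exp l) → Alg (Complex.exp l') →
      Dependent (Complex.exp α) l → Dependent (Complex.exp α) l' → ∃ q : ℚ, l = q * l') ∧
    -- (3) the pairs `(r, s)` with `1, e^r, t^s` dependent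
    (∀ t : ℝ, 0 < t → Transcendental ℚ t →
      Pairs t = ∅ ∨
      (∃ (ρ : ℝ) (s : ℚ), Pairs t = {((ρ : ℂ), s)}) ∨
      (∃ ρ : ℝ, ρ ≠ 0 ∧ IsAlgebraic ℚ ρ ∧ 
        Pairs t = {p : ℂ × ℚ | p.2 ≠ 0 ∧ p.1 = (ρ : ℂ) * (p.2 : ℂ)})) ∧
    -- (4) `1, e, π`
    (Dependent (Complex.exp 1) Real.pi →
      (∃ c : ℂ, Alg c ∧ Complex.exp 1 = c * Real.pi) ∨ Pairs Real.pi = {(1, 1)}) ∧
    -- (5) algebraic dependence
    (∀ t : ℝ, Transcendental ℚ t → ∃ ρ : ℂ, Alg ρ ∧ (ρ.re = 0 ∨ ρ.im = 0) ∧
      ∀ r : ℂ, Alg r → ¬ AlgebraicIndependent ℚ ![(t : ℂ), Complex.exp r] →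
        ∃ q : ℚ, r = q * ρ) := by
  refine ⟨?_, ?_, ?_, ?_, ?_, ?_⟩
  · intro t ht α α' hα hα' h0 h0' h h'
    exact dep_exp ht hα hα' h0 h0' h h'
  · intro t ht α hα h0 h
    apply Complex.conj_eq_iff_im.mp
    symm
    exact dep_exp (trans_coe ht) hα (conj_alg hα) h0 (by simpa using h0) h (dep_conj h)
  · intro α l l' hα h0 hl hl' hel hel' h h'
    exact dep_log hα h0 hl hl' hel hel' h h'
  · intro t ht htr
    by_cases hE : Pairs t = ∅
    · exact Or.inl hE
    right
    obtain ⟨p, hp⟩ := Set.nonempty_iff_ne_empty.mpr hE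
    obtain ⟨r, s⟩ := p
    obtain ⟨a, c, ha, hc, hc0, h⟩ := pairs_rep ht htr hp
    have hp' := pairs_conj hp
    obtain ⟨a₁, c₁, ha₁, hc₁, hc0₁, h₁⟩ := pairs_rep ht htr hp'
    obtain ⟨hr, hr0, hs, hD⟩ := hp
    simp only at hr hr0 hs hD h h₁
    by_cases ha0 : a = 0
    · right
      have hreal : r.im = 0 := by
        apply Complex.conj_eq_iff_im.mp
        have ha₁0 : a₁ = 0 := by
          by_contra hne
          have h2 := rigid ht htr (conj_alg hr) hr (by simpa using hr0) hr0 hs hs ha₁ hc₁ ha hc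
            hc0₁ hc0 hne h₁ h
          rw [h2.1] at h₁
          have h3 : a₁ + (c₁ - c) * ((t ^ (s : ℝ) : ℝ) : ℂ) = 0 := by
            rw [ha0] at h
            linear_combination h - h₁
          exact hne (zero_of ht htr hs ha₁ (hc₁.sub hc) h3)
        rw [ha0, zero_add] at h
        rw [ha₁0, zero_add] at h₁
        have h2 := prop_pair ht hr (conj_alg hr) hs hc hc₁ hc0 hc0₁ h h₁
        have hsc : (s : ℂ) ≠ 0 := by exact_mod_cast hs
        rw [h2]
        field_simp
      obtain ⟨x, hx⟩ : ∃ x : ℝ, r = (x : ℂ) := ⟨r.re, by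
        apply Complex.ext <;> simp [hreal]⟩
      have hx0 : x ≠ 0 := by
        rintro rfl
        apply hr0
        rw [hx]; simp
      have hxs : ((x / s : ℝ) : ℂ) = r / s := by
        rw [hx]; push_cast; rfl
      have hsr : (s : ℝ) ≠ 0 := by exact_mod_cast hs
      refine ⟨x / s, div_ne_zero hx0 hsr, ?_, ?_⟩
      · have h1 : IsAlgebraic ℚ x :=
          (isAlgebraic_algebraMap_iff (A := ℂ) (algebraMap ℝ ℂ).injective).mp
            (by rw [hx] at hr; exact hr)
        have h2 : IsAlgebraic ℚ ((s : ℝ)) := by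
          have := isAlgebraic_algebraMap (R := ℚ) (A := ℝ) s
          simpa using this
        rw [div_eq_mul_inv]
        exact h1.mul h2.inv
      · ext p
        constructor
        · intro hp
          obtain ⟨a', c', ha', hc', hc0', h'⟩ := pairs_rep ht htr hp
          obtain ⟨hr', hr0', hs', -⟩ := hp
          have ha'0 : a' = 0 := by
            by_contra hne
            have h2 := rigid ht htr hr' hr hr0' hr0 hs' hs ha' hc' ha hc hc0' hc0 hne h' h
            rw [h2.1, h2.2] at h'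
            have h3 : a' + (c' - c) * ((t ^ (s : ℝ) : ℝ) : ℂ) = 0 := by
              rw [ha0] at h
              linear_combination h - h'
            exact hne (zero_of ht htr hs ha' (hc'.sub hc) h3)
          refine ⟨hs', ?_⟩
          rw [hxs]
          have h4 := h
          rw [ha0, zero_add] at h4
          rw [ha'0, zero_add] at h'
          exact prop_pair ht hr hr' hs hc hc' hc0 hc0' h4 h'
        · rintro ⟨hs', hp1⟩
          rw [hxs] at hp1
          have hsc : (s : ℂ) ≠ 0 := by exact_mod_cast hs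
          have hsc' : (p.2 : ℂ) ≠ 0 := by exact_mod_cast hs'
          have hq : ∀ q : ℚ, Alg (q : ℂ) := by
            intro q
            have := isAlgebraic_algebraMap (R := ℚ) (A := ℂ) q
            simpa using this
          refine ⟨?_, ?_, hs', ?_⟩
          · rw [hp1, div_eq_mul_inv]
            exact (hr.mul (hq s).inv).mul (hq _)
          · rw [hp1]
            exact mul_ne_zero (div_ne_zero hr0 hsc) hsc'
          · rw [hp1]
            rw [ha0, zero_add] at h
            exact on_line ht hs hc h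
    · left
      have hreal : r.im = 0 := by
        apply Complex.conj_eq_iff_im.mp
        exact (rigid ht htr hr (conj_alg hr) hr0 (by simpa using hr0) hs hs ha hc ha₁ hc₁
          hc0 hc0₁ ha0 h h₁).1.symm
      refine ⟨r.re, s, ?_⟩
      have hx : ((r.re : ℝ) : ℂ) = r := by
        apply Complex.ext <;> simp [hreal]
      rw [hx]
      ext p
      constructor
      · intro hp
        obtain ⟨a', c', ha', hc', hc0', h'⟩ := pairs_rep ht htr hp
        obtain ⟨hr', hr0', hs', -⟩ := hp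
        have h2 := rigid ht htr hr hr' hr0 hr0' hs hs' ha hc ha' hc' hc0 hc0' ha0 h h'
        exact Prod.ext h2.1.symm h2.2.symm
      · intro hp
        rw [Set.mem_singleton_iff] at hp
        rw [hp]
        exact ⟨hr, hr0, hs, hD⟩
  · intro hD
    have hpi : Transcendental ℚ (Real.pi : ℂ) := LW.transcendental_pi_complex
    have hpir : Transcendental ℚ Real.pi := LW.transcendental_pi
    obtain ⟨a, c, ha, hc, hc0, h⟩ := Dep.rep
      (LW.transcendental_cexp 1 isAlgebraic_one one_ne_zero) hpi hD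
    by_cases ha0 : a = 0
    · left
      exact ⟨c, hc, by rw [h, ha0, zero_add]⟩
    · right
      have h1 : Complex.exp 1 = a + c * ((Real.pi ^ ((1 : ℚ) : ℝ) : ℝ) : ℂ) := by
        rw [Rat.cast_one, Real.rpow_one]
        exact h
      ext p
      constructor
      · intro hp
        obtain ⟨a', c', ha', hc', hc0', h'⟩ := pairs_rep Real.pi_pos hpir hp
        obtain ⟨hr', hr0', hs', -⟩ := hp
        have h2 := rigid Real.pi_pos hpir isAlgebraic_one hr' one_ne_zero hr0' one_ne_zero hs' ha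
          hc ha' hc' hc0 hc0' ha0 h1 h'
        exact Prod.ext h2.1.symm h2.2.symm
      · intro hp
        rw [Set.mem_singleton_iff] at hp
        rw [hp]
        refine ⟨isAlgebraic_one, one_ne_zero, one_ne_zero, ?_⟩
        simp only [Rat.cast_one, Real.rpow_one]
        exact hD
  · intro t ht
    have htc := trans_coe ht
    by_cases hE : ∃ r : ℂ, Alg r ∧ r ≠ 0 ∧ ¬ AlgebraicIndependent ℚ ![(t : ℂ), Complex.exp r]
    · obtain ⟨r, hr, hr0, h⟩ := hE
      have hcl := cl_of_dep htc h
      refine ⟨r, hr, ?_, fun r' hr' h' => lw_dep hr hr' hr0 hcl (cl_of_dep htc h')⟩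
      have hconj : ¬ AlgebraicIndependent ℚ ![(t : ℂ), Complex.exp ((starRingEnd ℂ) r)] := by
        intro h1
        apply h
        rw [← AlgHom.algebraicIndependent_iff (Complex.conjAe.toAlgHom.restrictScalars ℚ)
          Complex.conjAe.injective] at h1
        convert h1 using 1
        funext i
        fin_cases i
        · show (t : ℂ) = (starRingEnd ℂ) (t : ℂ)
          rw [Complex.conj_ofReal]
        · show Complex.exp r = (starRingEnd ℂ) (Complex.exp ((starRingEnd ℂ) r))
          rw [← Complex.exp_conj, Complex.conj_conj]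
      obtain ⟨q, hq⟩ := lw_dep hr (conj_alg hr) hr0 hcl (cl_of_dep htc hconj)
      have hnorm := congrArg norm hq
      rw [Complex.norm_conj, norm_mul] at hnorm
      have hrn : ‖r‖ ≠ 0 := norm_ne_zero_iff.mpr hr0
      have hqn : ‖(q : ℂ)‖ = 1 := by
        have : ‖r‖ * (1 - ‖(q : ℂ)‖) = 0 := by linear_combination hnorm
        have := (mul_eq_zero.mp this).resolve_left hrn
        linarith
      have hq2 : |(q : ℝ)| = 1 := by
        rw [← hqn]
        have : (q : ℂ) = ((q : ℝ) : ℂ) := by push_cast; rfl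
        rw [this, Complex.norm_real, Real.norm_eq_abs]
      have hre := congrArg Complex.re hq
      have him := congrArg Complex.im hq
      have hqc : (q : ℂ) = ((q : ℝ) : ℂ) := by push_cast; rfl
      rw [hqc, Complex.conj_re, Complex.re_ofReal_mul] at hre
      rw [hqc, Complex.conj_im, Complex.im_ofReal_mul] at him
      rcases (abs_eq zero_le_one).mp hq2 with h1 | h1
      · right
        rw [h1] at him
        linarith
      · left
        rw [h1] at hre
        linarith
    · push Not at hE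
      refine ⟨0, isAlgebraic_zero, Or.inl rfl, fun r hr h => ⟨0, ?_⟩⟩
      by_contra hne
      exact h (hE r hr (by simpa using hne))

end Pool.Agent.Results.MP_58e087_nt.DependentTriples
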