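import Pool.Agent.Q252.EN.Sharp

/-!
# Near relations between `1`, `e` and an arbitrary real number (for instance `π`)

The definitions are in `Pool.Agent.Q252.EN.Core` and `Pool.Agent.Q252.EN.Sharp`: for an integer
vector `v = (x, y, z)` the height `ht v` is the maximum of `|x|`, `|y|`, `|z|`, and
`L t v = x + y e + z t`; `Near t w X` is the set of the primitive vectors with `z > 0`,
`ht v ≤ X` and `|L t v| ≤ (ht v) ^ (-w)`.

All constants below are independent of `t`.
-/

set_option autoImplicit false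

namespace Pool.Agent.Results.MP_58e087_nt.NearRelations

open Real Pool.Agent.Q252.EN

/-- **Near relations between `1`, `e` and an arbitrary real number `t`.**

(1) A product inequality for two linearly independent integer vectors, with explicit constants;
in particular, if `t` satisfies one relation `L t u = 0`, then
`|L t v| ≥ 1 / (4000 (ht u)² (ht v) (1 + log (2 ht u ht v)))` for all `v` not proportional to `u`.

(2) The exponents in (1) are best possible.

(3) For `w > 3` there are at most `log log X / log ρ + C` primitive near relations of exponent `w`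
and height at most `X`, for every `ρ < (w - 1) / 2`.

(4) Let `γ > (3 + √5) / 2 = 2.618…`. If there are near relations of exponent `γ` at all scales `X`
of a window `[Y, Z]`, then one vector of height at most `Y ^ K` is small enough for the whole
window.

(5) For `γ > (3 + √5) / 2` the numbers `1, e, t` are linearly independent over `ℚ` if and only if
there are arbitrarily large `X` without a near relation of exponent `γ`. -/
theorem result :
    (∀ (t : ℝ) (u v : Fin 3 → ℤ), LinearIndependent ℤ ![u, v] →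
      1 / (4000 * (ht u * ht v) ^ 2 * (1 + log (2 * (ht u * ht v)))) ≤
        |L t u| / ht u + |L t v| / ht v) ∧
    (∀ m : ℕ, 2 ≤ m → ∃ (t : ℝ) (u v : Fin 3 → ℤ),
      LinearIndependent ℤ ![u, v] ∧ ht u ≤ 2 * m ∧ ht v ≤ 2 * m ∧ L t u = 0 ∧
        |L t v| ≤ 4 / (m : ℝ) ^ 3) ∧
    (∀ w ρ : ℝ, 3 < w → 1 < ρ → ρ < (w - 1) / 2 → ∃ C : ℝ, ∀ t X : ℝ, 3 ≤ X →
      (Near t w X).Finite ∧ ((Near t w X).ncard : ℝ) ≤ log (log X) / log ρ + C) ∧
    (∀ γ : ℝ, (3 + √5) / 2 < γ → ∃ K : ℝ, 1 ≤ K ∧ ∀ t Y Z : ℝ, K ≤ Y → Y ≤ Z →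
      (∀ X ∈ Set.Icc Y Z, ∃ v : Fin 3 → ℤ, v ≠ 0 ∧ (ht v : ℝ) ≤ X ∧ |L t v| ≤ X ^ (-γ)) →
      ∃ v : Fin 3 → ℤ, v ≠ 0 ∧ (ht v : ℝ) ≤ Y ^ K ∧ |L t v| ≤ Z ^ (-γ)) ∧
    (∀ γ : ℝ, (3 + √5) / 2 < γ → ∀ t : ℝ, LinearIndependent ℚ ![(1 : ℝ), exp 1, t] ↔
      ∀ X0 : ℝ, ∃ X : ℝ, X0 ≤ X ∧ ∀ v : Fin 3 → ℤ, v ≠ 0 → (ht v : ℝ) ≤ X →
        X ^ (-γ) < |L t v|) :=
  ⟨product, sharp, count, window, crit⟩

end Pool.Agent.Results.MP_58e087_nt.NearRelations
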